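import Pool.Agent.Helper82_NIB.Stmts

set_option autoImplicit false

open Finset Matrix

namespace Pool.Agent.NIB.H13

section
variable {V : Type} [Fintype V] {g : V → V → ℝ}

omit [Fintype V] in
lemma bupd_nonneg (h01 : ∀ u v, g u v = 0 ∨ g u v = 1) (u v : V) : 0 ≤ g u v := by
  rcases h01 u v with h | h <;> rw [h]
  norm_num

lemma bupd_zero_out (h01 : ∀ u v, g u v = 0 ∨ g u v = 1) (u : V) :
    rs g (u, true) = 0 ↔ ∀ v, g u v ≠ 1 := by
  rw [rs_out, Finset.sum_eq_zero_iff_of_nonneg (fun v _ => bupd_nonneg h01 u v)]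
  constructor
  · intro h v h1
    rw [h v (Finset.mem_univ v)] at h1
    exact zero_ne_one h1
  · intro h v _
    exact (h01 u v).resolve_right (h v)

lemma bupd_zero_inn (h01 : ∀ u v, g u v = 0 ∨ g u v = 1) (v : V) :
    rs g (v, false) = 0 ↔ ∀ u, g u v ≠ 1 := by
  rw [rs_inn, Finset.sum_eq_zero_iff_of_nonneg (fun u _ => bupd_nonneg h01 u v)]
  constructor
  · intro h u h1
    rw [h u (Finset.mem_univ u)] at h1
    exact zero_ne_one h1
  · intro h u _
    exact (h01 u v).resolve_right (h u)

lemma bupd_uniq_out [DecidableEq V] (h01 : ∀ u v, g u v = 0 ∨ g u v = 1)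
    (hrow : ∀ w, rs g w ≤ 1) {u v v' : V} (h : g u v = 1) (h' : g u v' = 1) : v = v' := by
  by_contra hne
  have h1 := hrow (u, true)
  rw [rs_out] at h1
  have h2 : ∑ z ∈ ({v, v'} : Finset V), g u z ≤ ∑ z, g u z :=
    Finset.sum_le_sum_of_subset_of_nonneg (Finset.subset_univ _)
      (fun z _ _ => bupd_nonneg h01 u z)
  rw [Finset.sum_pair hne, h, h'] at h2
  linarith

lemma bupd_uniq_inn [DecidableEq V] (h01 : ∀ u v, g u v = 0 ∨ g u v = 1)
    (hrow : ∀ w, rs g w ≤ 1) {u u' v : V} (h : g u v = 1) (h' : g u' v = 1) : u = u' := by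
  by_contra hne
  have h1 := hrow (v, false)
  rw [rs_inn] at h1
  have h2 : ∑ z ∈ ({u, u'} : Finset V), g z v ≤ ∑ z, g z v :=
    Finset.sum_le_sum_of_subset_of_nonneg (Finset.subset_univ _)
      (fun z _ _ => bupd_nonneg h01 z v)
  rw [Finset.sum_pair hne, h, h'] at h2
  linarith

end

open Classical in
/-- The new starts of paths. -/
noncomputable def bupdSt {V C : Type} (S : St V C) (sg : C → V → V → ℝ) (c : C) (w : V) : V :=
  if h : ∃ u, sg c u (S.st c w) = 1 then S.st c h.choose else S.st c w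

open Classical in
/-- The new state. -/
noncomputable def bupdS {V C : Type} [Fintype V] (S : St V C) (sg : C → V → V → ℝ)
    (lab : C → V → Prop) (x' : C → V → V → ℝ) : St V C where
  M := fun c u v => S.M c u v ∨ sg c u v = 1
  x := x'
  st := bupdSt S sg
  rk := fun c w => S.rk c w + if lab c (S.st c w) then 1 + ∑ z, S.rk c z else 0

theorem bupd : BupdStmt := by
  classical
  intro V C _ _ _ _ E S de r h de' r' h' sg lab x' hS h01 hsx hsrow hslab hsdisj hx0 hxs hxle
    hxrow hxH hcnt
  -- consequences of selection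
  have hso : ∀ c u v, sg c u v = 1 → ∀ z, ¬ S.M c u z := by
    intro c u v hs
    have := hS.xout c u v (hsx c u v hs)
    simpa [St.hole] using this
  have hsi : ∀ c u v, sg c u v = 1 → ∀ z, ¬ S.M c z v := by
    intro c u v hs
    have := hS.xinn c u v (hsx c u v hs)
    simpa [St.hole] using this
  have hsst : ∀ c u v, sg c u v = 1 → S.st c v = v := fun c u v hs =>
    hS.st2 c v (hS.xinn c u v (hsx c u v hs))
  have huo : ∀ c u v v', sg c u v = 1 → sg c u v' = 1 → v = v' := fun c u v v' a b =>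
    bupd_uniq_out (h01 c) (hsrow c) a b
  have hui : ∀ c u u' v, sg c u v = 1 → sg c u' v = 1 → u = u' := fun c u u' v a b =>
    bupd_uniq_inn (h01 c) (hsrow c) a b
  -- the new starts
  have hst_pos : ∀ c w u, sg c u (S.st c w) = 1 → bupdSt S sg c w = S.st c u := by
    intro c w u hu
    have hex : ∃ u, sg c u (S.st c w) = 1 := ⟨u, hu⟩
    unfold bupdSt
    rw [dif_pos hex, hui c _ _ _ hex.choose_spec hu]
  have hst_neg : ∀ c w, (¬ ∃ u, sg c u (S.st c w) = 1) → bupdSt S sg c w = S.st c w := by
    intro c w hn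
    unfold bupdSt
    rw [dif_neg hn]
  -- holes
  have hhole : ∀ c w, (bupdS S sg lab x').hole c w ↔ S.hole c w ∧ rs (sg c) w = 0 := by
    rintro c ⟨w, b⟩
    cases b
    · rw [bupd_zero_inn (h01 c)]
      simp only [St.hole, bupdS, Bool.false_eq_true, if_false]
      constructor
      · intro hh
        exact ⟨fun u hu => hh u (Or.inl hu), fun u hu => hh u (Or.inr hu)⟩
      · rintro ⟨h1, h2⟩ u (hu | hu)
        · exact h1 u hu
        · exact h2 u hu
    · rw [bupd_zero_out (h01 c)]
      simp only [St.hole, bupdS, if_true]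
      constructor
      · intro hh
        exact ⟨fun u hu => hh u (Or.inl hu), fun u hu => hh u (Or.inr hu)⟩
      · rintro ⟨h1, h2⟩ u (hu | hu)
        · exact h1 u hu
        · exact h2 u hu
  have hstu : ∀ c u v, sg c u v = 1 → bupdSt S sg c u = S.st c u := by
    intro c u v hs
    apply hst_neg
    rintro ⟨a, ha⟩
    exact (hslab c u v hs).1 (hslab c a _ ha).2
  have hstv : ∀ c u v, sg c u v = 1 → bupdSt S sg c v = S.st c u := by
    intro c u v hs
    apply hst_pos
    rw [hsst c u v hs]
    exact hs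
  refine ⟨bupdS S sg lab x', ?_⟩
  refine
    { disj := ?_, sub := ?_, out := ?_, inn := ?_, rank := ?_, st1 := ?_, st2 := ?_, st3 := ?_,
      x0 := hx0, xE := ?_, xM := ?_, xout := ?_, xinn := ?_, xle := hxle, row := hxrow,
      rowH := ?_, hcnt := ?_ }
  · rintro c c' u v (h1 | h1) (h2 | h2)
    · exact hS.disj c c' u v h1 h2
    · exact absurd h1 (hS.xM c' c u v (hsx c' u v h2))
    · exact absurd h2 (hS.xM c c' u v (hsx c u v h1))
    · by_contra hne
      rw [hsdisj c c' u v hne h1] at h2
      exact zero_ne_one h2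
  · rintro c u v (h1 | h1)
    · exact hS.sub c u v h1
    · exact hS.xE c u v (hsx c u v h1)
  · rintro c u v v' (h1 | h1) (h2 | h2)
    · exact hS.out c u v v' h1 h2
    · exact absurd h1 (hso c u v' h2 v)
    · exact absurd h2 (hso c u v h1 v')
    · exact huo c u v v' h1 h2
  · rintro c u u' v (h1 | h1) (h2 | h2)
    · exact hS.inn c u u' v h1 h2
    · exact absurd h1 (hsi c u' v h2 u)
    · exact absurd h2 (hsi c u v h1 u')
    · exact hui c u u' v h1 h2
  · rintro c u v (h1 | h1)
    · have h2 := hS.rank c u v h1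
      have h3 := hS.st1 c u v h1
      simp only [bupdS, h3]
      omega
    · have h2 := hslab c u v h1
      have h3 : S.rk c u ≤ ∑ z, S.rk c z :=
        Finset.single_le_sum (f := fun z => S.rk c z) (fun z _ => Nat.zero_le _)
          (Finset.mem_univ u)
      simp only [bupdS, hsst c u v h1]
      rw [if_neg h2.1, if_pos h2.2]
      omega
  · rintro c u v (h1 | h1)
    · have h3 := hS.st1 c u v h1
      change bupdSt S sg c u = bupdSt S sg c v
      by_cases hp : ∃ a, sg c a (S.st c v) = 1
      · obtain ⟨a, ha⟩ := hp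
        rw [hst_pos c v a ha, hst_pos c u a (by rw [h3]; exact ha)]
      · rw [hst_neg c v hp, hst_neg c u (by rw [h3]; exact hp), h3]
    · change bupdSt S sg c u = bupdSt S sg c v
      rw [hstu c u v h1, hstv c u v h1]
  · intro c v hv
    rw [hhole] at hv
    have h1 := hS.st2 c v hv.1
    have h2 := (bupd_zero_inn (h01 c) v).1 hv.2
    change bupdSt S sg c v = v
    rw [hst_neg c v]
    · exact h1
    · rintro ⟨u, hu⟩
      rw [h1] at hu
      exact h2 u hu
  · intro c u u' hu hu' he
    rw [hhole] at hu hu'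
    have h1 := (bupd_zero_out (h01 c) u).1 hu.2
    have h2 := (bupd_zero_out (h01 c) u').1 hu'.2
    change bupdSt S sg c u = bupdSt S sg c u' at he
    by_cases hp : ∃ a, sg c a (S.st c u) = 1
    · obtain ⟨a, ha⟩ := hp
      rw [hst_pos c u a ha] at he
      by_cases hp' : ∃ a', sg c a' (S.st c u') = 1
      · obtain ⟨a', ha'⟩ := hp'
        rw [hst_pos c u' a' ha'] at he
        have h3 := hS.st3 c a a' (hS.xout c _ _ (hsx c _ _ ha)) (hS.xout c _ _ (hsx c _ _ ha')) he
        subst h3
        exact hS.st3 c u u' hu.1 hu'.1 (huo c a _ _ ha ha')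
      · rw [hst_neg c u' hp'] at he
        have h3 := hS.st3 c a u' (hS.xout c _ _ (hsx c _ _ ha)) hu'.1 he
        subst h3
        exact absurd ha (h2 _)
    · rw [hst_neg c u hp] at he
      by_cases hp' : ∃ a', sg c a' (S.st c u') = 1
      · obtain ⟨a', ha'⟩ := hp'
        rw [hst_pos c u' a' ha'] at he
        have h3 := hS.st3 c u a' hu.1 (hS.xout c _ _ (hsx c _ _ ha')) he
        subst h3
        exact absurd ha' (h1 _)
      · rw [hst_neg c u' hp'] at he
        exact hS.st3 c u u' hu.1 hu'.1 he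
  · intro c u v hx
    exact hS.xE c u v (hxs c u v hx).1
  · rintro c c' u v hx (h1 | h1)
    · exact hS.xM c c' u v (hxs c u v hx).1 h1
    · rw [(hxs c u v hx).2.2.2 c'] at h1
      exact zero_ne_one h1
  · intro c u v hx
    rw [hhole]
    exact ⟨hS.xout c u v (hxs c u v hx).1, (hxs c u v hx).2.1⟩
  · intro c u v hx
    rw [hhole]
    exact ⟨hS.xinn c u v (hxs c u v hx).1, (hxs c u v hx).2.2.1⟩
  · intro c w hw
    rw [hhole] at hw
    exact hxH c w hw.1 hw.2
  · intro w
    refine le_trans ?_ (hcnt w)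
    have : ({c | (bupdS S sg lab x').hole c w} : Set C) =
        {c | S.hole c w ∧ rs (sg c) w = 0} := by
      ext c
      exact hhole c w
    rw [this]

end Pool.Agent.NIB.H13
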