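import Pool.Agent.Helper82_NIB.Stmts
import Pool.Agent.Helper75_Viz.Regularise
import Pool.Agent.Helper14_LA.Final

set_option autoImplicit false

open Finset Matrix

namespace Pool.Agent.NIB.H13

open Pool.Agent.Helper14_LA

/-- Unused neighbours. -/
lemma red_count {V : Type} [Finite V] {ι : Type} (A : Set V) (M : ι → V → Prop)
    (K m : ℕ) (hA : A.ncard = K) (hsub : ∀ c v, M c v → v ∈ A)
    (hinj : ∀ c c' v, M c v → M c' v → c = c')
    (hm : m ≤ ({c | ∃ v, M c v} : Set ι).ncard) :
    (A \ {v | ∃ c, M c v}).ncard + m ≤ K := by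
  have h1 : ({c | ∃ v, M c v} : Set ι).ncard ≤ ({v | ∃ c, M c v} : Set V).ncard := by
    rcases isEmpty_or_nonempty V with hV | hV
    · have : ({c | ∃ v, M c v} : Set ι) = ∅ := by
        ext c
        constructor
        · rintro ⟨v, _⟩
          exact (hV.false v).elim
        · intro h
          exact h.elim
      rw [this, Set.ncard_empty]
      exact Nat.zero_le _
    have hch : ∀ c : ι, ∃ v : V, (∃ v', M c v') → M c v := by
      intro c
      by_cases h : ∃ v', M c v'
      · obtain ⟨v, hv⟩ := h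
        exact ⟨v, fun _ => hv⟩
      · exact ⟨hV.some, fun h' => absurd h' h⟩
    choose f hf using hch
    refine Set.ncard_le_ncard_of_injOn f (fun c hc => ⟨c, hf c hc⟩) ?_ (Set.toFinite _)
    intro c hc c' hc' he
    have h2 := hf c hc
    rw [he] at h2
    exact hinj c c' _ h2 (hf c' hc')
  have h2 : ({v | ∃ c, M c v} : Set V) ⊆ A := by
    rintro v ⟨c, hc⟩
    exact hsub c v hc
  have h3 := Set.ncard_sdiff_add_ncard_of_subset h2 (Set.toFinite A)
  omega

/-- Union of two coverings. -/
lemma red_union {V : Type} {G H : SimpleGraph V} {k m : ℕ} (hG : CoveredBy G k)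
    (F : Fin m → SimpleGraph V) (hF : ∀ c, IsLinearForest (F c)) (hH : G ⊔ (⨆ c, F c) = H) :
    CoveredBy H (k + m) := by
  obtain ⟨L, hL, hLG⟩ := hG
  refine ⟨Fin.append L F, ?_, ?_⟩
  · intro i
    refine Fin.addCases (fun i => ?_) (fun i => ?_) i
    · rw [Fin.append_left]; exact hL i
    · rw [Fin.append_right]; exact hF i
  · rw [← hH, ← hLG]
    ext u v
    rw [SimpleGraph.iSup_adj, SimpleGraph.sup_adj, SimpleGraph.iSup_adj, SimpleGraph.iSup_adj]
    constructor
    · rintro ⟨i, hi⟩
      revert hi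
      refine Fin.addCases (fun i => ?_) (fun i => ?_) i
      · rw [Fin.append_left]
        exact fun h => Or.inl ⟨i, h⟩
      · rw [Fin.append_right]
        exact fun h => Or.inr ⟨i, h⟩
    · rintro (⟨i, hi⟩ | ⟨i, hi⟩)
      · exact ⟨Fin.castAdd m i, by rw [Fin.append_left]; exact hi⟩
      · exact ⟨Fin.natAdd k i, by rw [Fin.append_right]; exact hi⟩

/-- RED -/
theorem red (hori : OriStmt) (hlinf : LinfStmt) : RedStmt := by
  intro N K k hround hNK hN hcov V _ G hG
  -- regularise
  obtain ⟨W, hW, H, f, hreg, hfH⟩ := Pool.Agent.Helper75_Viz.exists_regular (2 * K) (2 * K) V G hG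
    (fun v => by omega)
  suffices hH : CoveredBy H (k + N ^ 320) by
    rw [← hfH]
    exact hH.comap f
  classical
  have := Fintype.ofFinite W
  obtain ⟨E, hE, hEH, hHE, hEas⟩ := hori W H K hreg
  obtain ⟨M, rk, hdisj, hsub, hout, hinn, hrk, ho, hi⟩ := hround W E hE
  have hirr : ∀ c u v, M c u v → u ≠ v := by
    rintro c u v h rfl
    exact lt_irrefl _ (hrk c u u h)
  let F : Fin (N ^ 320) → SimpleGraph W := fun c =>
    { Adj := fun u v => M c u v ∨ M c v u
      symm := ⟨fun u v h => h.symm⟩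
      loopless := ⟨fun u h => by
        rcases h with h | h
        · exact hirr c u u h rfl
        · exact hirr c u u h rfl⟩ }
  have hF : ∀ c, IsLinearForest (F c) := fun c =>
    hlinf W (M c) (rk c) (F c) (fun u v => Iff.rfl) (hout c) (hinn c) (hrk c)
  let R : SimpleGraph W :=
    { Adj := fun u v => H.Adj u v ∧ ∀ c, ¬ (F c).Adj u v
      symm := ⟨fun u v h => ⟨h.1.symm, fun c hc => h.2 c hc.symm⟩⟩
      loopless := ⟨fun u h => h.1.ne rfl⟩ }
  have hRdeg : ∀ w, (R.neighborSet w).ncard ≤ 2 * (K + 2 * N ^ 74 - N ^ 320) := by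
    intro w
    have h1 := red_count ({v | E w v} : Set W) (fun c v => M c w v) K (N ^ 320 - 2 * N ^ 74)
      (hE.out w) (fun c v h => hsub c w v h) (fun c c' v h h' => hdisj c c' w v h h')
      (by have := ho w; omega)
    have h2 := red_count ({u | E u w} : Set W) (fun c u => M c u w) K (N ^ 320 - 2 * N ^ 74)
      (hE.inn w) (fun c u h => hsub c u w h) (fun c c' u h h' => hdisj c c' u w h h')
      (by have := hi w; omega)
    have h3 : R.neighborSet w ⊆ (({v | E w v} : Set W) \ {v | ∃ c, M c w v}) ∪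
        (({u | E u w} : Set W) \ {u | ∃ c, M c u w}) := by
      intro v hv
      rw [SimpleGraph.mem_neighborSet] at hv
      obtain ⟨hv1, hv2⟩ := hv
      rcases hHE w v hv1 with h | h
      · exact Or.inl ⟨h, fun ⟨c, hc⟩ => hv2 c (Or.inl hc)⟩
      · exact Or.inr ⟨h, fun ⟨c, hc⟩ => hv2 c (Or.inr hc)⟩
    have h4 := (Set.ncard_le_ncard h3 (Set.toFinite _)).trans (Set.ncard_union_le _ _)
    omega
  have hRcov := hcov W R hRdeg
  refine red_union hRcov F hF ?_
  ext u v
  rw [SimpleGraph.sup_adj, SimpleGraph.iSup_adj]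
  constructor
  · rintro (h | ⟨c, hc⟩)
    · exact h.1
    · rcases hc with hc | hc
      · exact hEH u v (hsub c u v hc)
      · exact (hEH v u (hsub c v u hc)).symm
  · intro h
    by_cases hc : ∃ c, (F c).Adj u v
    · exact Or.inr hc
    · left
      push Not at hc
      exact ⟨h, hc⟩

end Pool.Agent.NIB.H13
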